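import Mathlib
import Pool.Agent.H.MP_c3a542_nt.B

namespace Pool.Agent.Results.MP_c3a542_nt.No

open Filter Topology Pool.Agent.H.MP_c3a542_nt

/-- Both indices used to compute `b n` lie in `{1, …, n-1}`. -/
def InRange (b : ℕ → ℤ) (n : ℕ) : Prop :=
  (1 ≤ b (n - 1) ∧ b (n - 1) ≤ (n : ℤ) - 1) ∧
    (1 ≤ (n : ℤ) - b (n - 1) ∧ (n : ℤ) - b (n - 1) ≤ (n : ℤ) - 1)

/-- `b` is an everywhere defined solution of the perturbed Conway–Mallows recursion. -/
def Good (b : ℕ → ℤ) : Prop :=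
  b 1 = 1 ∧ b 2 = 1 ∧ ∀ n, 3 ≤ n → InRange b n ∧
    b n = b (b (n - 1)).toNat + b ((n : ℤ) - b (n - 1)).toNat + (-1) ^ n

def Pre (b : ℕ → ℤ) : Prop :=
  b 1 = 1 ∧ b 2 = 1 ∧ ∀ n, 3 ≤ n → InRange b n →
    b n = b (b (n - 1)).toNat + b ((n : ℤ) - b (n - 1)).toNat + (-1) ^ n

def bb (n : ℕ) : ℤ :=
  if h : n ≤ 2 then 1 else
    bb (min (bb (n - 1)).toNat (n - 1)) + bb (min ((n : ℤ) - bb (n - 1)).toNat (n - 1)) + (-1) ^ n
termination_by n
decreasing_by all_goals omega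

lemma pre_bb : Pre bb := by
  refine ⟨by rw [bb]; simp, by rw [bb]; simp, fun n hn hr => ?_⟩
  obtain ⟨⟨a, b⟩, c, d⟩ := hr
  rw [bb, dif_neg (by omega), min_eq_left (by omega), min_eq_left (by omega)]

lemma inv {b : ℕ → ℤ} (h : Pre b) : ∀ n, ∀ k, 1 ≤ k → k ≤ n →
    b k % 2 = 1 ∧ 1 ≤ b k ∧ b k ≤ k ∧ (3 ≤ k → b k = b (k - 2) ∨ b k = b (k - 2) + 2) := by
  obtain ⟨h1, h2, h3⟩ := h
  have b3 : b 3 = 1 := by
    have := h3 3 le_rfl (by simp [InRange, h2])
    simp [h2] at this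
    simpa [h1, h2] using this
  have b4 : b 4 = 3 := by
    have := h3 4 (by norm_num) (by simp [InRange, b3])
    simp [b3] at this
    rw [this, h1]; norm_num
  intro n
  induction n with
  | zero => intro k a b; omega
  | succ n ih =>
    intro k hk1 hk2
    rcases Nat.lt_or_ge k (n + 1) with hlt | hge
    · exact ih k hk1 (by omega)
    obtain rfl : k = n + 1 := by omega
    rcases Nat.lt_or_ge n 4 with h4 | h4
    · interval_cases n <;> simp [h1, h2, b3, b4]
    obtain ⟨m, rfl⟩ : ∃ m, n = m + 4 := ⟨n - 4, by omega⟩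
    obtain ⟨p1, p2, p3, p4⟩ := ih (m + 4) (by omega) le_rfl
    obtain ⟨q1, q2, q3, -⟩ := ih (m + 2) (by omega) (by omega)
    obtain ⟨r1, r2, r3, -⟩ := ih (m + 3) (by omega) (by omega)
    have e1 := h3 (m + 5) (by omega) (by
      simp only [InRange, show m + 5 - 1 = m + 4 from rfl]; push_cast at *; omega)
    have e2 := h3 (m + 3) (by omega) (by
      simp only [InRange, show m + 3 - 1 = m + 2 from rfl]; push_cast at *; omega)
    simp only [show m + 5 - 1 = m + 4 from rfl, show m + 3 - 1 = m + 2 from rfl,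
      show m + 4 - 2 = m + 2 from rfl] at e1 e2 p4
    have e3 : (-1 : ℤ) ^ (m + 5) = (-1) ^ (m + 3) := by
      rw [show m + 5 = m + 3 + 2 from rfl, pow_add]; norm_num
    rw [e3] at e1
    have key : b (m + 5) = b (m + 3) ∨ b (m + 5) = b (m + 3) + 2 := by
      push_cast at *
      rcases p4 (by omega) with p | p
      · obtain ⟨-, -, -, s⟩ := ih ((m : ℤ) + 5 - b (m + 4)).toNat (by omega) (by omega)
        have e : ((m : ℤ) + 5 - b (m + 4)).toNat - 2 = ((m : ℤ) + 3 - b (m + 2)).toNat := by omega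
        rw [e] at s
        have s := s (by omega)
        rw [p] at e1 s
        omega
      · obtain ⟨-, -, -, s⟩ := ih (b (m + 4)).toNat (by omega) (by omega)
        have e : (b (m + 4)).toNat - 2 = (b (m + 2)).toNat := by omega
        rw [e] at s
        have s := s (by omega)
        have e' : ((m : ℤ) + 5 - b (m + 4)).toNat = ((m : ℤ) + 3 - b (m + 2)).toNat := by omega
        rw [e'] at e1
        omega
    simp only [show m + 4 + 1 = m + 5 from rfl, show m + 5 - 2 = m + 3 from rfl]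
    push_cast at *
    omega

lemma good_of_pre {b : ℕ → ℤ} (h : Pre b) : Good b := by
  refine ⟨h.1, h.2.1, fun n hn => ?_⟩
  have hr : InRange b n := by
    obtain ⟨-, a, c, -⟩ := inv h (n - 1) (n - 1) (by omega) le_rfl
    simp only [InRange]
    omega
  exact ⟨hr, h.2.2 n hn hr⟩

lemma nice {b : ℕ → ℤ} (h : Good b) : Nice (fun i => b i.toNat) := by
  have hp : Pre b := ⟨h.1, h.2.1, fun n hn _ => (h.2.2 n hn).2⟩
  refine ⟨fun i hi => (inv hp _ i.toNat (by omega) le_rfl).1, fun i hi => ?_, fun n hn => ?_⟩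
  · obtain ⟨-, -, -, s⟩ := inv hp _ (i + 2).toNat (by omega) le_rfl
    have e : (i + 2).toNat - 2 = i.toNat := by omega
    rw [e] at s
    have s := s (by omega)
    omega
  · obtain ⟨m, rfl⟩ : ∃ m : ℕ, n = m := ⟨n.toNat, by omega⟩
    obtain ⟨⟨⟨a, c⟩, -⟩, d⟩ := h.2.2 m (by omega)
    have e : ((m : ℤ) - 1).toNat = m - 1 := by omega
    have e2 : eps m = (-1) ^ m := by
      unfold eps
      rcases Nat.even_or_odd m with hm | hm
      · rw [hm.neg_one_pow, if_pos]; obtain ⟨k, rfl⟩ := hm; omega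
      · rw [hm.neg_one_pow, if_neg]; obtain ⟨k, rfl⟩ := hm; omega
    simp only [e, Int.toNat_natCast, e2]
    exact ⟨a, c, d⟩

theorem result : (∃ b, Good b) ∧ ∀ b, Good b →
    (∃ᶠ n : ℕ in atTop, (0.317 : ℝ) < (b n : ℝ) / n) ∧
    ¬ Tendsto (fun n : ℕ => (b n : ℝ) / n) atTop (𝓝 (1 / (2 * ((1 + √5) / 2)))) := by
  refine ⟨⟨bb, good_of_pre pre_bb⟩, fun b hb => ?_⟩
  have hf : ∃ᶠ n : ℕ in atTop, (0.317 : ℝ) < (b n : ℝ) / n := by
    rw [frequently_atTop]
    intro a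
    have h1 := big (nice hb) hb.1 hb.2.1 (a + 30000) (by omega)
    have h2 := (Nb (a + 30000 + 3)).1
    obtain ⟨m, hm⟩ : ∃ m : ℕ, N (a + 30000 + 3) = m := ⟨(N (a + 30000 + 3)).toNat, by omega⟩
    rw [hm] at h1 h2
    simp only [Int.toNat_natCast] at h1
    refine ⟨m, by omega, ?_⟩
    have hm0 : (0 : ℝ) < m := by exact_mod_cast (show 0 < m by omega)
    rw [lt_div_iff₀ hm0]
    have : (317 : ℝ) * m < 1000 * b m := by exact_mod_cast h1
    linarith
  refine ⟨hf, fun ht => ?_⟩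
  have hs : (2.2 : ℝ) < √5 := Real.lt_sqrt_of_sq_lt (by norm_num)
  have hl : 1 / (2 * ((1 + √5) / 2)) < (0.317 : ℝ) := by
    rw [div_lt_iff₀ (by positivity)]
    linarith
  obtain ⟨n, h1, h2⟩ := (hf.and_eventually (ht.eventually (gt_mem_nhds hl))).exists
  linarith

end Pool.Agent.Results.MP_c3a542_nt.No
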